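import Mathlib

set_option autoImplicit false

/-!
# Gaps of orbits of a rotation of `ℤ/n`
-/

namespace Pool.Agent.H86.SS

theorem fval {a n u v : ℤ} (h : n ∣ a * u - v) (h0 : 0 ≤ v) (h1 : v < n) : (a * u) % n = v := by
  have h2 : (a * u) % n = v % n := Int.emod_eq_emod_iff_emod_sub_eq_zero.2
    (Int.emod_eq_zero_of_dvd h)
  rw [h2, Int.emod_eq_of_lt h0 h1]

theorem fdvd (a n u : ℤ) : n ∣ a * u - (a * u) % n := Int.dvd_self_sub_emod

theorem fpos {a n u : ℤ} (hco : IsCoprime a n) (h0 : 0 < u) (h1 : u < n) :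
    0 < (a * u) % n := by
  have h2 := Int.emod_nonneg (a * u) (b := n) (by omega)
  rcases h2.lt_or_eq with h3 | h3
  · exact h3
  · exfalso
    have h4 : n ∣ a * u := Int.dvd_of_emod_eq_zero h3.symm
    have h5 : n ∣ u := hco.symm.dvd_of_dvd_mul_left h4
    have := Int.le_of_dvd h0 h5
    omega

/-- The orbit `α u`, `0 ≤ u ≤ K`, stays in `[0, κ]` and ends in `κ`. -/
theorem pack {a n K κ : ℤ} (hco : IsCoprime a n) (hK : 0 < K) (hκ0 : 0 < κ) (hκn : κ < n)
    (hKn : K < n) (hend : n ∣ a * K - κ) (horb : ∀ u, 0 < u → u < K → (a * u) % n < κ) :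
    ∃ q e : ℤ, 1 ≤ q ∧ q ≤ K ∧ 1 ≤ e ∧ n ∣ a * q - e ∧ K * e + q * (n - κ) = n ∧
      (∀ d, 1 ≤ d → d ≤ K → e ≤ (a * d) % n) ∧
      (∀ z : ℤ, (∃ u i : ℤ, 0 ≤ u ∧ u < K ∧ 0 ≤ i ∧ i < e ∧ n ∣ a * u + i - z) ∨
        (∃ d i : ℤ, 0 ≤ d ∧ d < q ∧ 0 ≤ i ∧ i < n - κ ∧ n ∣ a * d - 1 - i - z)) := by
  have hn : 0 < n := by omega
  have fK : (a * K) % n = κ := fval hend hκ0.le hκn
  have fle : ∀ u, 1 ≤ u → u ≤ K → (a * u) % n ≤ κ := by
    intro u h1 h2
    rcases h2.lt_or_eq with h3 | h3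
    · exact (horb u (by omega) h3).le
    · rw [h3, fK]
  obtain ⟨q, hq, hmin⟩ := Finset.exists_min_image (Finset.Icc 1 K) (fun u => (a * u) % n)
    ⟨1, by simp; omega⟩
  rw [Finset.mem_Icc] at hq
  have hmin' : ∀ u, 1 ≤ u → u ≤ K → (a * q) % n ≤ (a * u) % n := fun u h1 h2 =>
    hmin u (Finset.mem_Icc.2 ⟨h1, h2⟩)
  obtain ⟨e, he⟩ : ∃ e, e = (a * q) % n := ⟨_, rfl⟩
  rw [← he] at hmin'
  have e1 : 1 ≤ e := by rw [he]; exact fpos hco (by omega) (by omega)
  have eκ : e ≤ κ := by rw [he]; exact fle q hq.1 hq.2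
  have hqd : n ∣ a * q - e := by rw [he]; exact fdvd a n q
  obtain ⟨g, hg⟩ : ∃ g, g = n - κ := ⟨_, rfl⟩
  have refl : ∀ d, 1 ≤ d → d < K → (a * (K - d)) % n = κ - (a * d) % n := by
    intro d h1 h2
    apply fval
    · obtain ⟨x, hx⟩ := hend
      obtain ⟨y, hy⟩ := fdvd a n d
      exact ⟨x - y, by linear_combination hx - hy⟩
    · have := fle d h1 h2.le; omega
    · have := Int.emod_nonneg (a * d) (b := n) (by omega)
      omega
  have strict : ∀ d, 1 ≤ d → d ≤ K → d ≠ q → e < (a * d) % n := by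
    intro d h1 h2 h3
    rcases (hmin' d h1 h2).lt_or_eq with h4 | h4
    · exact h4
    · exfalso
      have h5 : n ∣ a * (d - q) := by
        obtain ⟨x, hx⟩ := hqd
        obtain ⟨y, hy⟩ := fdvd a n d
        exact ⟨y - x, by linear_combination hy - hx - h4⟩
      have h6 : n ∣ d - q := hco.symm.dvd_of_dvd_mul_left h5
      have h7 := Int.eq_zero_of_abs_lt_dvd h6 (abs_lt.2 ⟨by omega, by omega⟩)
      omega
  have big : ∀ d, 1 ≤ d → d < q → e + g ≤ (a * d) % n := by
    intro d h1 h2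
    have h3 := strict d h1 (by omega) (by omega)
    have h4 := Int.emod_lt_of_pos (a * d) hn
    have h5 : (a * (q - d)) % n = n - ((a * d) % n - e) := by
      apply fval
      · obtain ⟨x, hx⟩ := hqd
        obtain ⟨y, hy⟩ := fdvd a n d
        exact ⟨x - y - 1, by linear_combination hx - hy⟩
      · omega
      · omega
    have h6 := fle (q - d) (by omega) (by omega)
    omega
  -- the three kinds of collisions
  have cA : ∀ u v i j : ℤ, 0 ≤ v → v < u → u < K → 0 ≤ i → i < e → 0 ≤ j → j < e →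
      n ∣ a * (u - v) - (j - i) → False := by
    intro u v i j h1 h2 h3 h4 h5 h6 h7 h8
    rcases le_or_gt 0 (j - i) with h9 | h9
    · have h10 := fval h8 h9 (by omega)
      have h11 := hmin' (u - v) (by omega) (by omega)
      omega
    · have h10 : (a * (u - v)) % n = n + (j - i) := by
        apply fval
        · obtain ⟨x, hx⟩ := h8
          exact ⟨x - 1, by linear_combination hx⟩
        · omega
        · omega
      have h11 := refl (u - v) (by omega) (by omega)
      have h12 := hmin' (K - (u - v)) (by omega) (by omega)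
      omega
  have cB : ∀ u v i j : ℤ, 0 ≤ v → v < u → u < q → 0 ≤ i → i < g → 0 ≤ j → j < g →
      n ∣ a * (u - v) - (i - j) → False := by
    intro u v i j h1 h2 h3 h4 h5 h6 h7 h8
    rcases le_or_gt 0 (i - j) with h9 | h9
    · have h10 := fval h8 h9 (by omega)
      have h11 := big (u - v) (by omega) (by omega)
      omega
    · have h10 : (a * (u - v)) % n = n + (i - j) := by
        apply fval
        · obtain ⟨x, hx⟩ := h8
          exact ⟨x - 1, by linear_combination hx⟩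
        · omega
        · omega
      have h11 := fle (u - v) (by omega) (by omega)
      omega
  have cC : ∀ u d i j : ℤ, 0 ≤ u → u < K → 0 ≤ d → d < q → 0 ≤ i → i < e → 0 ≤ j → j < g →
      n ∣ a * (u - d) + (1 + i + j) → False := by
    intro u d i j h1 h2 h3 h4 h5 h6 h7 h8 h9
    rcases lt_trichotomy u d with h10 | h10 | h10
    · have h11 : (a * (d - u)) % n = 1 + i + j := by
        apply fval
        · obtain ⟨x, hx⟩ := h9
          exact ⟨-x, by linear_combination -hx⟩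
        · omega
        · omega
      have h12 := big (d - u) (by omega) (by omega)
      omega
    · subst h10
      have h11 : n ∣ 1 + i + j := by
        obtain ⟨x, hx⟩ := h9
        exact ⟨x, by linear_combination hx⟩
      have := Int.le_of_dvd (by omega) h11
      omega
    · have h11 : (a * (u - d)) % n = n - (1 + i + j) := by
        apply fval
        · obtain ⟨x, hx⟩ := h9
          exact ⟨x - 1, by linear_combination hx⟩
        · omega
        · omega
      have h12 := refl (u - d) (by omega) (by omega)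
      have h13 := hmin' (K - (u - d)) (by omega) (by omega)
      omega
  -- packing
  have inj1 : Set.InjOn (fun p : ℤ × ℤ => (a * p.1 + p.2) % n)
      (Finset.Ico 0 K ×ˢ Finset.Ico 0 e : Finset (ℤ × ℤ)) := by
    rintro ⟨u, i⟩ hu ⟨v, j⟩ hv huv
    simp only [Finset.coe_product, Set.mem_prod, Finset.mem_coe, Finset.mem_Ico] at hu hv
    simp only at huv
    have h1 : n ∣ (a * u + i) - (a * v + j) :=
      Int.dvd_of_emod_eq_zero (Int.emod_eq_emod_iff_emod_sub_eq_zero.1 huv)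
    obtain ⟨x, hx⟩ := h1
    rcases lt_trichotomy u v with h2 | h2 | h2
    · exact (cA v u j i hu.1.1 h2 hv.1.2 hv.2.1 hv.2.2 hu.2.1 hu.2.2
        ⟨-x, by linear_combination -hx⟩).elim
    · subst h2
      have h3 : n ∣ i - j := ⟨x, by linear_combination hx⟩
      have h4 := Int.eq_zero_of_abs_lt_dvd h3 (abs_lt.2 ⟨by omega, by omega⟩)
      have h5 : i = j := by omega
      rw [h5]
    · exact (cA u v i j hv.1.1 h2 hu.1.2 hu.2.1 hu.2.2 hv.2.1 hv.2.2
        ⟨x, by linear_combination hx⟩).elim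
  have inj2 : Set.InjOn (fun p : ℤ × ℤ => (a * p.1 - 1 - p.2) % n)
      (Finset.Ico 0 q ×ˢ Finset.Ico 0 g : Finset (ℤ × ℤ)) := by
    rintro ⟨u, i⟩ hu ⟨v, j⟩ hv huv
    simp only [Finset.coe_product, Set.mem_prod, Finset.mem_coe, Finset.mem_Ico] at hu hv
    simp only at huv
    have h1 : n ∣ (a * u - 1 - i) - (a * v - 1 - j) :=
      Int.dvd_of_emod_eq_zero (Int.emod_eq_emod_iff_emod_sub_eq_zero.1 huv)
    obtain ⟨x, hx⟩ := h1
    rcases lt_trichotomy u v with h2 | h2 | h2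
    · exact (cB v u j i hu.1.1 h2 hv.1.2 hv.2.1 hv.2.2 hu.2.1 hu.2.2
        ⟨-x, by linear_combination -hx⟩).elim
    · subst h2
      have h3 : n ∣ j - i := ⟨x, by linear_combination hx⟩
      have h4 := Int.eq_zero_of_abs_lt_dvd h3 (abs_lt.2 ⟨by omega, by omega⟩)
      have h5 : i = j := by omega
      rw [h5]
    · exact (cB u v i j hv.1.1 h2 hu.1.2 hu.2.1 hu.2.2 hv.2.1 hv.2.2
        ⟨x, by linear_combination hx⟩).elim
  have disj : Disjoint ((Finset.Ico 0 K ×ˢ Finset.Ico 0 e : Finset (ℤ × ℤ)).image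
      (fun p : ℤ × ℤ => (a * p.1 + p.2) % n))
      ((Finset.Ico 0 q ×ˢ Finset.Ico 0 g : Finset (ℤ × ℤ)).image
      (fun p : ℤ × ℤ => (a * p.1 - 1 - p.2) % n)) := by
    rw [Finset.disjoint_left]
    intro z h1 h2
    obtain ⟨⟨u, i⟩, hu, rfl⟩ := Finset.mem_image.1 h1
    obtain ⟨⟨d, j⟩, hd, hz⟩ := Finset.mem_image.1 h2
    simp only [Finset.mem_product, Finset.mem_Ico] at hu hd
    simp only at hz
    obtain ⟨x, hx⟩ : n ∣ (a * d - 1 - j) - (a * u + i) :=
      Int.dvd_of_emod_eq_zero (Int.emod_eq_emod_iff_emod_sub_eq_zero.1 hz)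
    exact cC u d i j hu.1.1 hu.1.2 hd.1.1 hd.1.2 hu.2.1 hu.2.2 hd.2.1 hd.2.2
      ⟨-x, by linear_combination -hx⟩
  have hcard : ((Finset.Ico 0 K ×ˢ Finset.Ico 0 e : Finset (ℤ × ℤ)).image
      (fun p : ℤ × ℤ => (a * p.1 + p.2) % n) ∪
      (Finset.Ico 0 q ×ˢ Finset.Ico 0 g : Finset (ℤ × ℤ)).image
      (fun p : ℤ × ℤ => (a * p.1 - 1 - p.2) % n)).card = K.toNat * e.toNat + q.toNat * g.toNat := by
    rw [Finset.card_union_of_disjoint disj, Finset.card_image_of_injOn inj1,
      Finset.card_image_of_injOn inj2]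
    simp
  have hsub : ((Finset.Ico 0 K ×ˢ Finset.Ico 0 e : Finset (ℤ × ℤ)).image
      (fun p : ℤ × ℤ => (a * p.1 + p.2) % n) ∪
      (Finset.Ico 0 q ×ˢ Finset.Ico 0 g : Finset (ℤ × ℤ)).image
      (fun p : ℤ × ℤ => (a * p.1 - 1 - p.2) % n)) ⊆ Finset.Ico 0 n := by
    intro z hz
    rw [Finset.mem_Ico]
    rcases Finset.mem_union.1 hz with h | h
    · obtain ⟨p, -, rfl⟩ := Finset.mem_image.1 h
      exact ⟨Int.emod_nonneg _ (by omega), Int.emod_lt_of_pos _ hn⟩
    · obtain ⟨p, -, rfl⟩ := Finset.mem_image.1 h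
      exact ⟨Int.emod_nonneg _ (by omega), Int.emod_lt_of_pos _ hn⟩
  have hle : K * e + q * g ≤ n := by
    have h1 := Finset.card_le_card hsub
    rw [hcard, Int.card_Ico] at h1
    have h2 : ((K.toNat * e.toNat + q.toNat * g.toNat : ℕ) : ℤ) ≤ ((n - 0).toNat : ℕ) := by
      exact_mod_cast h1
    push_cast at h2
    rw [Int.toNat_of_nonneg (by omega), Int.toNat_of_nonneg (by omega),
      Int.toNat_of_nonneg (by omega), Int.toNat_of_nonneg (by omega),
      Int.toNat_of_nonneg (by omega)] at h2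
    linarith
  have hdvd : n ∣ K * e + q * g := by
    obtain ⟨x, hx⟩ := hqd
    obtain ⟨y, hy⟩ := hend
    exact ⟨q - K * x + q * y, by rw [hg]; linear_combination -K * hx + q * hy⟩
  have hpos : 0 < K * e + q * g := by
    have h1 : 0 < K * e := mul_pos hK (by omega)
    have h2 : 0 < q * g := mul_pos (by omega) (by omega)
    omega
  have heq : K * e + q * g = n := le_antisymm hle (Int.le_of_dvd hpos hdvd)
  refine ⟨q, e, hq.1, hq.2, e1, hqd, by rw [← hg]; exact heq, hmin', ?_⟩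
  intro z
  have hfull := Finset.eq_of_subset_of_card_le hsub (by
    rw [hcard, Int.card_Ico]
    have h2 : ((n - 0).toNat : ℤ) ≤ ((K.toNat * e.toNat + q.toNat * g.toNat : ℕ) : ℤ) := by
      push_cast
      rw [Int.toNat_of_nonneg (by omega), Int.toNat_of_nonneg (by omega),
        Int.toNat_of_nonneg (by omega), Int.toNat_of_nonneg (by omega),
        Int.toNat_of_nonneg (by omega)]
      linarith
    exact_mod_cast h2)
  have hz : z % n ∈ Finset.Ico 0 n := Finset.mem_Ico.2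
    ⟨Int.emod_nonneg _ (by omega), Int.emod_lt_of_pos _ hn⟩
  rw [← hfull] at hz
  rcases Finset.mem_union.1 hz with h | h
  · obtain ⟨⟨u, i⟩, hu, hz⟩ := Finset.mem_image.1 h
    simp only [Finset.mem_product, Finset.mem_Ico] at hu
    exact Or.inl ⟨u, i, hu.1.1, hu.1.2, hu.2.1, hu.2.2,
      Int.dvd_of_emod_eq_zero (Int.emod_eq_emod_iff_emod_sub_eq_zero.1 hz)⟩
  · obtain ⟨⟨u, i⟩, hu, hz⟩ := Finset.mem_image.1 h
    simp only [Finset.mem_product, Finset.mem_Ico] at hu
    exact Or.inr ⟨u, i, hu.1.1, hu.1.2, hu.2.1, by omega,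
      Int.dvd_of_emod_eq_zero (Int.emod_eq_emod_iff_emod_sub_eq_zero.1 hz)⟩

end Pool.Agent.H86.SS
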