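import Mathlib
import Pool.Agent.H86.SS.Pack

set_option autoImplicit false

namespace Pool.Agent.H86.SS

/-- the largest element of the orbit comes early or late -/
theorem chain {a n K G b q e : ℤ} (hn : 0 < n) (hK : 0 < K) (hG : 0 < G) (h9 : n < 9 * G)
    (hq : 1 ≤ q) (he1 : 1 ≤ e) (he : e < n) (hend : n ∣ a * K + G) (hqe : n ∣ a * q - e)
    (heq : K * e + q * G = n) (hF : ∀ d, 1 ≤ d → d ≤ b → G ≤ (a * d) % n)
    (hb : 25 ≤ K + 2 * b) : b < q := by
  by_contra hcon
  have fq : (a * q) % n = e := fval hqe (by omega) he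
  have heG : G ≤ e := by rw [← fq]; exact hF q hq (by omega)
  have hKq : K + q ≤ 8 := by
    have h1 : K * G ≤ K * e := mul_le_mul_of_nonneg_left heG hK.le
    have h2 : (K + q) * G < 9 * G := by nlinarith
    have h3 : K + q < 9 := lt_of_mul_lt_mul_right h2 hG.le
    omega
  have step : ∀ d v, 1 ≤ d → d + K ≤ b → (a * d) % n = v → (a * (d + K)) % n = v - G := by
    intro d v h1 h2 h3
    have h4 := hF d h1 (by omega)
    have h5 := Int.emod_lt_of_pos (a * d) hn
    apply fval
    · obtain ⟨x, hx⟩ := hend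
      obtain ⟨y, hy⟩ := fdvd a n d
      exact ⟨x + y, by linear_combination hx + hy + h3⟩
    · omega
    · omega
  have all : ∀ c : ℕ, q + c * K ≤ 9 → (a * (q + c * K)) % n = e - c * G := by
    intro c
    induction c with
    | zero => intro _; simpa using fq
    | succ c ih =>
      intro h
      push_cast at h ⊢
      have h0 : (0 : ℤ) ≤ c * K := mul_nonneg (Int.natCast_nonneg c) hK.le
      have h1 := step (q + c * K) _ (by omega) (by nlinarith) (ih (by nlinarith))
      have e1 : q + ((c : ℤ) + 1) * K = q + c * K + K := by ring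
      rw [e1, h1]
      ring
  obtain ⟨c, hc⟩ : ∃ c : ℕ, (c : ℤ) = (9 - q) / K :=
    ⟨((9 - q) / K).toNat, Int.toNat_of_nonneg (Int.ediv_nonneg (by omega) hK.le)⟩
  have c1 : (c : ℤ) * K ≤ 9 - q := by rw [hc]; exact Int.ediv_mul_le _ (by omega)
  have c2 : 9 - q < ((c : ℤ) + 1) * K := by rw [hc]; exact Int.lt_ediv_add_one_mul_self _ hK
  have c0 : (0 : ℤ) ≤ c * K := mul_nonneg (Int.natCast_nonneg c) hK.le
  have h1 := hF (q + c * K) (by omega) (by omega)
  rw [all c (by omega)] at h1
  have h2 : ((c : ℤ) + 1) * G ≤ e := by linarith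
  have h3 : K * (((c : ℤ) + 1) * G) ≤ K * e := mul_le_mul_of_nonneg_left h2 hK.le
  have h4 : (9 - q) * G ≤ (((c : ℤ) + 1) * K) * G := mul_le_mul_of_nonneg_right c2.le hG.le
  nlinarith

end Pool.Agent.H86.SS
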