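import Mathlib
import Pool.Graph.R_seed8.H208.SS.Main2

set_option autoImplicit false

namespace Pool.Agent.H86.SS

open Pool.Agent.H208.SS

/-- the value `a h + b t - 2 n c` -/
theorem ptc {h n W t : ℤ} (hc : CoverG h n W) (ht : 0 ≤ t) (hh : 0 ≤ h)
    (hA : 2 * n ∣ h * W + t) (a b c : ℤ) (hV : (a * h + b * t) % 2 = 0)
    (h1 : h + t < a * h + b * t - 2 * n * c) (h2 : a * h + b * t - 2 * n * c < 2 * n - (h + t)) :
    ∃ x, -h < x ∧ x < h ∧ (x - h) % 2 = 0 ∧
      (2 * n ∣ (x + b * h) * W - (a - 1) * h ∨ 2 * n ∣ (x + b * h) * W - (a + 1) * h) := by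
  have hV' : (a * h + b * t - 2 * n * c) % 2 = 0 := by
    have e : a * h + b * t - 2 * n * c = (a * h + b * t) + 2 * (-(n * c)) := by ring
    rw [e, Int.add_mul_emod_self_left]
    exact hV
  obtain ⟨x, h3, h4, hp, h5⟩ := hc.valB ht hh hA _ hV' h1 h2
  refine ⟨x, h3, h4, hp, ?_⟩
  obtain ⟨l, hl⟩ := hA
  rcases h5 with ⟨k, hk⟩ | ⟨k, hk⟩
  · exact Or.inl ⟨k + b * l - c, by linear_combination hk + b * hl⟩
  · exact Or.inr ⟨k + b * l - c, by linear_combination hk + b * hl⟩

/-- `2 n = 5 h - 2` is impossible for `h` divisible by four -/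
theorem four_false {h n W t : ℤ} (hh : h % 4 = 0) (h8 : 8 ≤ h) (hc : CoverG h n W)
    (hu : IsCoprime W (2 * n)) (ht0 : 1 ≤ t) (hth : t ≤ h) (ht1 : t % 2 = 0)
    (hA : 2 * n ∣ h * W + t) (hn : 2 * n = 5 * h - 2) : False := by
  obtain ⟨l, hl⟩ := hA
  have hA : 2 * n ∣ h * W + t := ⟨l, hl⟩
  -- `t < h`
  have htlt : t < h := by
    by_contra hcon
    have e : t = h := by omega
    subst e
    obtain ⟨x, h1, h2, -, h3⟩ := hc.valB (by omega) (by omega) hA (2 * t + 2) (by omega)
      (by omega) (by omega)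
    -- `2 W ≡ -2`
    rcases h3 with ⟨k, hk⟩ | ⟨k, hk⟩
    · have h5 : 2 * n ∣ (x + t + 2) * W := by
        refine ⟨k + l + (l * 5 - W - 1), ?_⟩
        linear_combination hk + 6 * hl + (W + 1) * hn
      have := dz (cancel hu h5) (by omega) (by omega)
      omega
    · have h5 : 2 * n ∣ (x + 3 * t + 2) * W := by
        refine ⟨k + 3 * l + (l * 5 - W - 1), ?_⟩
        linear_combination hk + 8 * hl + (W + 1) * hn
      have := dz (cancel hu h5) (by omega) (by omega)
      omega
  -- `y W ≡ 2 h`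
  obtain ⟨y, y1, y2, y3, k1, hk1⟩ : ∃ y, h < y ∧ y < 3 * h ∧ y % 2 = 0 ∧
      2 * n ∣ y * W - 2 * h := by
    obtain ⟨x, h1, h2, h3, h4 | h4⟩ := ptc hc (by omega) (by omega) hA 1 2 0 (by omega) (by omega)
      (by omega)
    · exfalso
      have h5 : 2 * n ∣ (x + 2 * h) * W := by
        obtain ⟨k, hk⟩ := h4
        exact ⟨k, by linear_combination hk⟩
      have := dz (cancel hu h5) (by omega) (by omega)
      omega
    · refine ⟨x + 2 * h, by omega, by omega, by omega, ?_⟩
      obtain ⟨k, hk⟩ := h4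
      exact ⟨k, by linear_combination hk⟩
  -- `t ≤ h - 4`
  have ht4 : t ≤ h - 4 := by
    by_contra hcon
    have e : t = h - 2 := by omega
    have h5 : 2 * n ∣ (2 * y - h) * W := by
      refine ⟨2 * k1 - l + 1, ?_⟩
      linear_combination 2 * hk1 - hl + e - hn
    have := dz (m := 2 * n) (c := 2 * y - h) (cancel hu h5) (by omega) (by omega)
    omega
  -- `(3, 0)`
  have p30 : 2 * h ≤ y := by
    obtain ⟨x, h1, h2, h3, h4 | h4⟩ := ptc hc (by omega) (by omega) hA 3 0 0 (by omega) (by omega)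
      (by omega)
    · exfalso
      have h5 : 2 * n ∣ (y - x) * W := by
        obtain ⟨k, hk⟩ := h4
        exact ⟨k1 - k, by linear_combination hk1 - hk⟩
      have := dz (cancel hu h5) (by omega) (by omega)
      omega
    · have h5 : 2 * n ∣ (2 * y - x) * W := by
        obtain ⟨k, hk⟩ := h4
        exact ⟨2 * k1 - k, by linear_combination 2 * hk1 - hk⟩
      have := dz (m := 2 * n) (c := 2 * y - x - 2 * n) (by
        obtain ⟨k, hk⟩ := cancel hu h5
        exact ⟨k - 1, by linear_combination hk⟩) (by omega) (by omega)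
      omega
  -- `(3, -1)`
  have p31 : 2 * y ≤ 5 * h - 4 := by
    obtain ⟨x, h1, h2, h3, h4 | h4⟩ := ptc hc (by omega) (by omega) hA 3 (-1) 0 (by omega)
      (by omega) (by omega)
    · exfalso
      have h5 : 2 * n ∣ (y - x + h) * W := by
        obtain ⟨k, hk⟩ := h4
        exact ⟨k1 - k, by linear_combination hk1 - hk⟩
      have := dz (m := 2 * n) (c := y - x + h) (cancel hu h5) (by omega) (by omega)
      omega
    · have h5 : 2 * n ∣ (2 * y - x + h) * W := by
        obtain ⟨k, hk⟩ := h4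
        exact ⟨2 * k1 - k, by linear_combination 2 * hk1 - hk⟩
      have := dz (m := 2 * n) (c := 2 * y - x + h - 2 * n) (by
        obtain ⟨k, hk⟩ := cancel hu h5
        exact ⟨k - 1, by linear_combination hk⟩) (by omega) (by omega)
      omega
  -- `(2, 0)`
  have p20 : 3 * y ≤ 7 * h - 6 ∧ y % 4 = 2 := by
    obtain ⟨x, h1, h2, h3, h4 | h4⟩ := ptc hc (by omega) (by omega) hA 2 0 0 (by omega) (by omega)
      (by omega)
    · exfalso
      have h5 : 2 * n ∣ (y - 2 * x) * W := by
        obtain ⟨k, hk⟩ := h4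
        exact ⟨k1 - 2 * k, by linear_combination hk1 - 2 * hk⟩
      have := dz (m := 2 * n) (c := y - 2 * x) (cancel hu h5) (by omega) (by omega)
      omega
    · have h5 : 2 * n ∣ (3 * y - 2 * x) * W := by
        obtain ⟨k, hk⟩ := h4
        exact ⟨3 * k1 - 2 * k, by linear_combination 3 * hk1 - 2 * hk⟩
      have := dz (m := 2 * n) (c := 3 * y - 2 * x - 2 * n) (by
        obtain ⟨k, hk⟩ := cancel hu h5
        exact ⟨k - 1, by linear_combination hk⟩) (by omega) (by omega)
      omega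
  -- `(7, 0)`
  have p70 : 9 * h - 2 ≤ 4 * y := by
    obtain ⟨x, h1, h2, h3, h4 | h4⟩ := ptc hc (by omega) (by omega) hA 7 0 1 (by omega) (by omega)
      (by omega)
    · exfalso
      have h5 : 2 * n ∣ (3 * y - x) * W := by
        obtain ⟨k, hk⟩ := h4
        exact ⟨3 * k1 - k, by linear_combination 3 * hk1 - hk⟩
      have := dz (m := 2 * n) (c := 3 * y - x - 2 * n) (by
        obtain ⟨k, hk⟩ := cancel hu h5
        exact ⟨k - 1, by linear_combination hk⟩) (by omega) (by omega)
      omega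
    · have h5 : 2 * n ∣ (4 * y - x) * W := by
        obtain ⟨k, hk⟩ := h4
        exact ⟨4 * k1 - k, by linear_combination 4 * hk1 - hk⟩
      have := dz (m := 2 * n) (c := 4 * y - x - 4 * n) (by
        obtain ⟨k, hk⟩ := cancel hu h5
        exact ⟨k - 2, by linear_combination hk⟩) (by omega) (by omega)
      omega
  -- `(6, 2)`
  obtain ⟨x, h1, h2, h3, h4 | h4⟩ := ptc hc (by omega) (by omega) hA 6 2 1 (by omega) (by omega)
    (by omega)
  · have h5 : 2 * n ∣ (2 * x + 4 * h - 5 * y) * W := by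
      obtain ⟨k, hk⟩ := h4
      exact ⟨2 * k - 5 * k1, by linear_combination 2 * hk - 5 * hk1⟩
    have := dz (m := 2 * n) (c := 2 * x + 4 * h - 5 * y + 4 * n) (by
      obtain ⟨k, hk⟩ := cancel hu h5
      exact ⟨k + 2, by linear_combination hk⟩) (by omega) (by omega)
    omega
  · have h5 : 2 * n ∣ (2 * x + 4 * h - 7 * y) * W := by
      obtain ⟨k, hk⟩ := h4
      exact ⟨2 * k - 7 * k1, by linear_combination 2 * hk - 7 * hk1⟩
    have := dz (m := 2 * n) (c := 2 * x + 4 * h - 7 * y + 4 * n) (by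
      obtain ⟨k, hk⟩ := cancel hu h5
      exact ⟨k + 2, by linear_combination hk⟩) (by omega) (by omega)
    omega

end Pool.Agent.H86.SS
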