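import Mathlib
import Pool.Agent.H86.SS.Four

set_option autoImplicit false

namespace Pool.Agent.H86.SS

open Pool.Agent.H208.SS

variable {G : Type} [AddCommGroup G]

/-- the pair `{(2 K + 1) g, (2 K - 1) g}` -/
theorem cov_pow {h n K m : ℕ} {g : G} (hg : ∀ x : G, ∃ k : ℤ, x = k • g)
    (hn : ∀ k : ℤ, (n : ℤ) ∣ k → k • g = 0) (hodd : n % 2 = 1) (hm : m % 2 = 1)
    (hK : h = K * m) (hK1 : 1 ≤ K) (hco : IsCoprime (K : ℤ) (n : ℤ)) (hle : n ≤ 2 * h + m) :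
    Cov2 h ((2 * (K : ℤ) + 1) • g) ((2 * (K : ℤ) - 1) • g) := by
  intro x
  obtain ⟨k, rfl⟩ := hg x
  obtain ⟨u, v, huv⟩ := hco
  have hKz : (h : ℤ) = K * m := by exact_mod_cast hK
  have hmh : (m : ℤ) ≤ h := by
    rw [hKz]
    have h1 : (1 : ℤ) ≤ K := by exact_mod_cast hK1
    have h2 : (0 : ℤ) ≤ m := Int.natCast_nonneg m
    nlinarith
  -- an odd representative
  obtain ⟨c, hc1, hc2, hc3, q, hq⟩ : ∃ c : ℤ, -(n : ℤ) ≤ c ∧ c ≤ n ∧ c % 2 = 1 ∧
      (n : ℤ) ∣ u * k - c := by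
    have h1 := Int.emod_nonneg (u * k) (b := (n : ℤ)) (by omega)
    have h2 := Int.emod_lt_of_pos (u * k) (b := (n : ℤ)) (by omega)
    have h3 : (n : ℤ) ∣ u * k - (u * k) % n := Int.dvd_self_sub_emod
    obtain ⟨c, hc⟩ := h3
    obtain ⟨r, hr⟩ : ∃ r, r = (u * k) % (n : ℤ) := ⟨_, rfl⟩
    rw [← hr] at h1 h2 hc
    by_cases hp : r % 2 = 1
    · exact ⟨r, by omega, by omega, hp, c, hc⟩
    · exact ⟨r - n, by omega, by omega, by omega, c + 1, by linear_combination hc⟩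
  have hkc : (n : ℤ) ∣ k - K * c := ⟨K * q + v * k, by
    linear_combination K * hq - k * huv⟩
  obtain ⟨l, j, h1, h2⟩ : ∃ l j : ℤ, l.natAbs + j.natAbs = h ∧
      l * (2 * K + 1) + j * (2 * K - 1) = K * c := by
    by_cases c1 : 2 * (h : ℤ) - m ≤ c
    · obtain ⟨s, hs⟩ : ∃ s : ℤ, m + c = 2 * s + 2 * h := ⟨(m + c) / 2 - h, by omega⟩
      have s0 : 0 ≤ s := by omega
      have s1 : s ≤ m := by omega
      have w0 : 0 ≤ (K : ℤ) * s := mul_nonneg (Int.natCast_nonneg K) s0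
      have w1 : (K : ℤ) * s ≤ h := by
        rw [hKz]
        exact mul_le_mul_of_nonneg_left s1 (Int.natCast_nonneg K)
      refine ⟨K * s, h - K * s, by omega, ?_⟩
      linear_combination (-(K : ℤ)) * hs - hKz
    by_cases c2 : c ≤ -(2 * (h : ℤ) - m)
    · obtain ⟨s, hs⟩ : ∃ s : ℤ, m - c = 2 * s + 2 * h := ⟨(m - c) / 2 - h, by omega⟩
      have s0 : 0 ≤ s := by omega
      have s1 : s ≤ m := by omega
      have w0 : 0 ≤ (K : ℤ) * s := mul_nonneg (Int.natCast_nonneg K) s0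
      have w1 : (K : ℤ) * s ≤ h := by
        rw [hKz]
        exact mul_le_mul_of_nonneg_left s1 (Int.natCast_nonneg K)
      refine ⟨-(K * s), -(h - K * s), by omega, ?_⟩
      linear_combination (K : ℤ) * hs + hKz
    · obtain ⟨P, M, hP, hM, hpar, hval⟩ : ∃ P M : ℤ, P.natAbs ≤ h ∧ M.natAbs = h ∧
          (P - M) % 2 = 0 ∧ 2 * K * P + M = K * c := by
        obtain ⟨P, hP⟩ : ∃ P : ℤ, c = 2 * P + m := ⟨(c - m) / 2, by omega⟩
        by_cases c3 : (P - h) % 2 = 0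
        · exact ⟨P, h, by omega, by omega, c3, by linear_combination hKz - K * hP⟩
        · exact ⟨P + m, -h, by omega, by omega, by omega, by
            linear_combination -hKz - K * hP⟩
      obtain ⟨l, hl⟩ : ∃ l : ℤ, P + M = 2 * l := ⟨(P + M) / 2, by omega⟩
      refine ⟨l, P - l, by omega, ?_⟩
      linear_combination hval - hl
  refine ⟨l, j, h1, ?_⟩
  have h4 := hn _ hkc
  rw [sub_smul, sub_eq_zero] at h4
  rw [h4, ← h2, add_smul, smul_smul, smul_smul]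

/-- the pair `{g, 5 g}` -/
theorem cov_one_five {h n : ℕ} {g : G} (hg : ∀ x : G, ∃ k : ℤ, x = k • g)
    (hn : ∀ k : ℤ, (n : ℤ) ∣ k → k • g = 0) (hodd : n % 2 = 1) (h4 : h % 4 = 0)
    (h3 : h % 3 ≠ 0) (hn3 : n % 3 = h % 3) (hhn : h ≤ n) (hle : 2 * n ≤ 5 * h) :
    Cov2 h ((1 : ℤ) • g) ((5 : ℤ) • g) := by
  intro x
  obtain ⟨k, rfl⟩ := hg x
  -- an even representative
  obtain ⟨c, hc1, hc2, hc3, q, hq⟩ : ∃ c : ℤ, -(n : ℤ) < c ∧ c < n ∧ c % 2 = 0 ∧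
      (n : ℤ) ∣ k - c := by
    have h1 := Int.emod_nonneg k (b := (n : ℤ)) (by omega)
    have h2 := Int.emod_lt_of_pos k (b := (n : ℤ)) (by omega)
    have h3 : (n : ℤ) ∣ k - k % n := Int.dvd_self_sub_emod
    obtain ⟨c, hc⟩ := h3
    obtain ⟨r, hr⟩ : ∃ r, r = k % (n : ℤ) := ⟨_, rfl⟩
    rw [← hr] at h1 h2 hc
    by_cases hp : r % 2 = 0
    · exact ⟨r, by omega, by omega, hp, c, hc⟩
    · exact ⟨r - n, by omega, by omega, by omega, c + 1, by linear_combination hc⟩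
  -- large multiples of four
  have big : ∀ c : ℤ, c % 4 = 0 → h ≤ c.natAbs → c.natAbs ≤ 5 * h →
      ∃ l j : ℤ, l.natAbs + j.natAbs = h ∧ l * 1 + j * 5 = c := by
    intro c e1 e2 e3
    rcases le_total 0 c with e4 | e4
    · exact ⟨h - (c - h) / 4, (c - h) / 4, by omega, by omega⟩
    · exact ⟨-(h - (-c - h) / 4), -((-c - h) / 4), by omega, by omega⟩
  -- numbers congruent to `-h` modulo `6`
  have low : ∀ c : ℤ, (c + h) % 6 = 0 → -(h : ℤ) ≤ c → c ≤ 5 * h →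
      ∃ l j : ℤ, l.natAbs + j.natAbs = h ∧ l * 1 + j * 5 = c := by
    intro c e1 e2 e3
    exact ⟨-(h - (c + h) / 6), (c + h) / 6, by omega, by omega⟩
  have low' : ∀ c : ℤ, (c - h) % 6 = 0 → c ≤ h → -(5 * h : ℤ) ≤ c →
      ∃ l j : ℤ, l.natAbs + j.natAbs = h ∧ l * 1 + j * 5 = c := by
    intro c e1 e2 e3
    exact ⟨h - (h - c) / 6, -((h - c) / 6), by omega, by omega⟩
  have hfin : ∃ c' l j : ℤ, (n : ℤ) ∣ k - c' ∧ l.natAbs + j.natAbs = h ∧ l * 1 + j * 5 = c' := by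
    by_cases b1 : h ≤ c.natAbs
    · by_cases b2 : c % 4 = 0
      · obtain ⟨l, j, h1, h2⟩ := big c b2 b1 (by omega)
        exact ⟨c, l, j, ⟨q, hq⟩, h1, h2⟩
      · rcases le_total 0 c with b3 | b3
        · obtain ⟨l, j, h1, h2⟩ := big (c - 2 * n) (by omega) (by omega) (by omega)
          exact ⟨c - 2 * n, l, j, ⟨q + 2, by linear_combination hq⟩, h1, h2⟩
        · obtain ⟨l, j, h1, h2⟩ := big (c + 2 * n) (by omega) (by omega) (by omega)
          exact ⟨c + 2 * n, l, j, ⟨q - 2, by linear_combination hq⟩, h1, h2⟩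
    · by_cases b2 : c % 3 = 0
      · rcases le_total 0 c with b3 | b3
        · obtain ⟨l, j, h1, h2⟩ := low' (c - 2 * n) (by omega) (by omega) (by omega)
          exact ⟨c - 2 * n, l, j, ⟨q + 2, by linear_combination hq⟩, h1, h2⟩
        · obtain ⟨l, j, h1, h2⟩ := low (c + 2 * n) (by omega) (by omega) (by omega)
          exact ⟨c + 2 * n, l, j, ⟨q - 2, by linear_combination hq⟩, h1, h2⟩
      · by_cases b4 : (c + h) % 6 = 0
        · obtain ⟨l, j, h1, h2⟩ := low c b4 (by omega) (by omega)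
          exact ⟨c, l, j, ⟨q, hq⟩, h1, h2⟩
        · have b5 : c % 3 = 1 ∨ c % 3 = 2 := by omega
          have b6 : (h : ℤ) % 3 = 1 ∨ (h : ℤ) % 3 = 2 := by omega
          have b7 : (c - h) % 6 = 0 := by
            rcases b5 with b5 | b5 <;> rcases b6 with b6 | b6 <;> omega
          obtain ⟨l, j, h1, h2⟩ := low' c b7 (by omega) (by omega)
          exact ⟨c, l, j, ⟨q, hq⟩, h1, h2⟩
  obtain ⟨c', l, j, h1, h2, h3⟩ := hfin
  refine ⟨l, j, h2, ?_⟩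
  have h4 := hn _ h1
  rw [sub_smul, sub_eq_zero] at h4
  rw [h4, ← h3, add_smul, smul_smul, smul_smul]

theorem phi_of_cov {h n : ℕ} (hh : 1 ≤ h) (hn : 2 ≤ n) (e : G ≃+ ZMod n) (p q : ℤ)
    (hpq : ¬ (n : ℤ) ∣ p - q)
    (H : ∀ g : G, (∀ x : G, ∃ k : ℤ, x = k • g) → (∀ k : ℤ, (n : ℤ) ∣ k → k • g = 0) →
      Cov2 h (p • g) (q • g)) : phi G h = 2 := by
  have : NeZero n := ⟨by omega⟩
  have : Fact (1 < n) := ⟨by omega⟩
  have : Nontrivial G := e.toEquiv.nontrivial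
  obtain ⟨g, hge⟩ : ∃ g : G, e g = 1 := ⟨e.symm 1, by simp⟩
  have hgk : ∀ k : ℤ, e (k • g) = (k : ZMod n) := by
    intro k
    rw [map_zsmul, hge, zsmul_one]
  have hg : ∀ x : G, ∃ k : ℤ, x = k • g := by
    intro x
    refine ⟨((e x).val : ℤ), e.injective ?_⟩
    rw [hgk]
    simp
  have hn' : ∀ k : ℤ, (n : ℤ) ∣ k ↔ k • g = 0 := by
    intro k
    rw [← ZMod.intCast_zmod_eq_zero_iff_dvd, ← hgk, map_eq_zero_iff e e.injective]
  rw [phi_eq_two_iff hh]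
  refine ⟨p • g, q • g, ?_, H g hg (fun k => (hn' k).1)⟩
  intro h0
  apply hpq
  rw [hn', sub_smul, h0, sub_self]

end Pool.Agent.H86.SS
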