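import Mathlib

set_option autoImplicit false

/-!
# Numerical contradictions
-/

namespace Pool.Agent.H86.SS

theorem fin2 {n r t K g : ℤ} (q e : ℤ) (hq : 1 ≤ q) (he : 1 ≤ e) (hqe : q + e ≤ 8)
    (hn : n % 2 = 1) (hr : r % 2 = 0) (h9 : 9 * r < 2 * n) (h5 : n < 5 * r) (ht1 : 1 ≤ t)
    (ht : t ≤ r) (hK : K = n - 2 * r - 2 * t) (h1 : q * r + e * t = n)
    (h2 : K * e + q * g = n) (hg : n - 4 * r ≤ g) (hg2 : g ≤ n - 2 * r) : q = 2 ∧ e = 3 := by
  have hq8 : q ≤ 7 := by omega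
  have he8 : e ≤ 7 := by omega
  interval_cases q <;> interval_cases e <;> omega

end Pool.Agent.H86.SS
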