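import Mathlib

set_option autoImplicit false

/-!
# Numerical contradictions
-/

namespace Pool.Agent.H86.SS

theorem fin1a {n r t K G κ η : ℤ} (q e b c d : ℤ) (hq : 1 ≤ q) (hq8 : q ≤ 8) (he : 1 ≤ e)
    (he8 : e ≤ 7) (hqe : q + e ≤ 10) (hd1 : 1 ≤ d) (hd2 : d ≤ 2)
    (hb : 0 ≤ b) (hbq : b < q) (hc : 0 ≤ c) (hc3 : c ≤ 3)
    (hn : n % 2 = 1) (hr : r % 2 = 0) (h9 : 9 * r < 2 * n) (h5 : n < 5 * r) (ht1 : 1 ≤ t)
    (ht : t ≤ r) (hr0 : 48 ≤ r) (hK : K = n - 2 * r - 2 * t) (h1 : q * r + e * t = n * d)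
    (h2 : (K - 2 * b) * e + q * G = n) (h3 : q * η + b * e = n * c) (hG : G = n - κ - 2 * η)
    (hκ : 1 ≤ κ) (hκη : κ + η ≤ 2 * r - 1) (hη : 0 ≤ η) (_hb0 : b = 0 → η = 0) : False := by
  interval_cases q <;> interval_cases e <;> first
    | omega
    | (interval_cases c <;> interval_cases d <;> omega)

end Pool.Agent.H86.SS
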