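import Mathlib
import Pool.Agent.H86.SS.Exist

set_option autoImplicit false

namespace Pool.Agent.H86.SS

open Pool.Agent.H208.SS

theorem coverG_bound4 {h n W : ℤ} (h4 : h % 4 = 0) (h8 : 8 ≤ h) (hW : W % 2 = 1)
    (hc : CoverG h n W) (hn : 2 * h + 2 ≤ n) : 2 * n + 6 ≤ 5 * h := by
  obtain ⟨h1, h2, h3⟩ := coverG_bound (h := h) (n := n) (by omega) hW hc hn
  have h5 := h3 (by omega)
  have h6 : 2 * n ≠ 5 * h - 2 := by
    intro e
    obtain ⟨W', t, hc', hW', hu, t1, t2, t3, hd⟩ := normaliseG (by omega) hW hc hn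
    exact four_false h4 h8 hc' hu t1 t2 (by omega) hd e
  omega

theorem bound4 {G : Type} [AddCommGroup G] [Finite G] {h : ℕ} (h4 : 4 ∣ h) (h8 : 8 ≤ h)
    (hphi : phi G h = 2) : 2 * Nat.card G + 6 ≤ 5 * h := by
  have := nontrivial_of_phi hphi
  obtain ⟨a, b, -, hc⟩ := (phi_eq_two_iff (by omega)).1 hphi
  have main : ∀ b' : G, AddSubgroup.zmultiples (a - b') = ⊤ → Cov2 h a b' →
      2 * Nat.card G + 6 ≤ 5 * h := by
    intro b' hv hc'
    obtain ⟨W, hW, hcov⟩ := cover_ofG hv hc'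
    by_cases hn : Nat.card G ≤ 2 * h + 1
    · omega
    · have := coverG_bound4 (h := h) (n := Nat.card G) (by omega) (by omega) hW hcov (by omega)
      omega
  rcases generates hc with hv | hu
  · exact main b hv hc
  · exact main (-b) (by rwa [sub_neg_eq_add]) hc.neg

theorem phi_pow {h K m n : ℕ} {k : ℕ} (hK : K = 2 ^ k) (hm : m % 2 = 1) (hh : h = K * m)
    (hn : 2 ≤ n) (hodd : n % 2 = 1) (hle : n ≤ 2 * h + m) (G : Type) [AddCommGroup G]
    (e : G ≃+ ZMod n) : phi G h = 2 := by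
  have hK1 : 1 ≤ K := by rw [hK]; exact Nat.one_le_two_pow
  have hh1 : 1 ≤ h := by
    rw [hh]
    exact Nat.mul_pos hK1 (by omega)
  refine phi_of_cov hh1 hn e (2 * (K : ℤ) + 1) (2 * (K : ℤ) - 1) ?_ ?_
  · intro hd
    have h1 : (n : ℤ) ∣ 2 := by
      have e : (2 * (K : ℤ) + 1) - (2 * (K : ℤ) - 1) = 2 := by ring
      rwa [e] at hd
    have h2 := Int.le_of_dvd (by norm_num) h1
    omega
  · intro g hg hn'
    refine cov_pow hg hn' hodd hm hh hK1 ?_ hle
    rw [hK]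
    push_cast
    apply IsCoprime.pow_left
    exact ⟨-(n / 2 : ℤ), 1, by omega⟩

theorem phi_one_five {h n : ℕ} (h4 : 4 ∣ h) (h3 : ¬ 3 ∣ h) (h0 : 1 ≤ h) (hn : 2 ≤ n)
    (hodd : n % 2 = 1)
    (hn3 : n % 3 = h % 3) (hle : 2 * n ≤ 5 * h) (G : Type) [AddCommGroup G]
    (e : G ≃+ ZMod n) : phi G h = 2 := by
  by_cases hhn : n ≤ 2 * h + 1
  · exact sufficient h h0 G n hn e (Or.inl hhn)
  refine phi_of_cov h0 hn e 1 5 ?_ ?_
  · intro hd
    have h1 : (n : ℤ) ∣ 4 := by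
      have e : ((1 : ℤ) - 5) = -4 := by norm_num
      rw [e, Int.dvd_neg] at hd
      exact hd
    have h2 := Int.le_of_dvd (by norm_num) h1
    omega
  · intro g hg hn'
    exact cov_one_five hg hn' hodd (by omega) (by omega) hn3 (by omega) hle

end Pool.Agent.H86.SS
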