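import Mathlib
import Pool.Agent.H86.SS.Chain
import Pool.Agent.H86.SS.FinC
import Pool.Agent.H86.SS.FinD

set_option autoImplicit false
set_option maxHeartbeats 4000000

namespace Pool.Agent.H86.SS

/-- the case `κ < 2 r` -/
theorem orbit_high {n r t K κ a : ℤ} (hn : n % 2 = 1) (hr : r % 2 = 0) (hr0 : 48 ≤ r)
    (hm : 25 ≤ n - 4 * r) (h9 : 9 * r < 2 * n) (h5 : n < 5 * r) (ht1 : 1 ≤ t) (ht : t ≤ r)
    (hK : K = n - 2 * r - 2 * t) (hat : n ∣ a * t + r) (hκ0 : 0 ≤ κ)
    (hend : n ∣ a * K - κ) (hco : IsCoprime a n)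
    (hU : ∀ u, 0 < u → u < K → ∃ s, 0 < s ∧ s < 2 * r ∧ (n ∣ a * u - s ∨ n ∣ a * u - (κ - s)))
    (hκ : κ < 2 * r) : False := by
  have hn0 : 0 < n := by omega
  have hK1 : n - 4 * r ≤ K := by omega
  have hκ1 : 0 < κ := by
    rcases hκ0.lt_or_eq with h | h
    · exact h
    · exfalso
      rw [← h, sub_zero] at hend
      have h6 : n ∣ K := hco.symm.dvd_of_dvd_mul_left hend
      have := Int.le_of_dvd (by omega) h6
      omega
  have hex : ∀ u, 0 ≤ u → u ≤ K → ∃ v, κ - 2 * r < v ∧ v < 2 * r ∧ n ∣ a * u - v := by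
    intro u h1 h2
    rcases h1.lt_or_eq with h3 | h3
    · rcases h2.lt_or_eq with h4 | h4
      · obtain ⟨s, s1, s2, s3 | s3⟩ := hU u h3 h4
        · exact ⟨s, by omega, s2, s3⟩
        · exact ⟨κ - s, by omega, by omega, s3⟩
      · exact ⟨κ, by omega, by omega, by rw [h4]; exact hend⟩
    · exact ⟨0, by omega, by omega, by rw [← h3]; simp⟩
  choose! y hy using hex
  have uniq : ∀ u v, 0 ≤ u → u ≤ K → κ - 2 * r < v → v < 2 * r → n ∣ a * u - v → y u = v := by
    intro u v h1 h2 h3 h4 ⟨x, hx⟩
    obtain ⟨h6, h7, z, hz⟩ := hy u h1 h2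
    have h8 : n ∣ y u - v := ⟨x - z, by linear_combination hx - hz⟩
    have := Int.eq_zero_of_abs_lt_dvd h8 (abs_lt.2 ⟨by omega, by omega⟩)
    omega
  have y0 : y 0 = 0 := uniq 0 0 (by omega) (by omega) (by omega) (by omega) (by simp)
  have yK : y K = κ := uniq K κ (by omega) (by omega) (by omega) (by omega) hend
  have inj : ∀ u v, 0 ≤ u → u ≤ K → 0 ≤ v → v ≤ K → y u = y v → u = v := by
    intro u v h1 h2 h3 h4 h6
    obtain ⟨-, -, z, hz⟩ := hy u h1 h2
    obtain ⟨-, -, w, hw⟩ := hy v h3 h4
    have h7 : n ∣ a * (u - v) := ⟨z - w, by linear_combination hz - hw + h6⟩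
    have h8 : n ∣ u - v := hco.symm.dvd_of_dvd_mul_left h7
    have := Int.eq_zero_of_abs_lt_dvd h8 (abs_lt.2 ⟨by omega, by omega⟩)
    omega
  have sym : ∀ u, 0 ≤ u → u ≤ K → y (K - u) = κ - y u := by
    intro u h1 h2
    obtain ⟨h6, h7, z, hz⟩ := hy u h1 h2
    apply uniq _ _ (by omega) (by omega) (by omega) (by omega)
    obtain ⟨w, hw⟩ := hend
    exact ⟨w - z, by linear_combination hw - hz⟩
  obtain ⟨A, hA, hmax⟩ := Finset.exists_max_image (Finset.Icc 0 K) y ⟨0, by simp; omega⟩
  rw [Finset.mem_Icc] at hA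
  have hmax' : ∀ u, 0 ≤ u → u ≤ K → y u ≤ y A := fun u h1 h2 =>
    hmax u (Finset.mem_Icc.2 ⟨h1, h2⟩)
  obtain ⟨P, hP⟩ : ∃ P, P = y A := ⟨_, rfl⟩
  rw [← hP] at hmax'
  have hmin' : ∀ u, 0 ≤ u → u ≤ K → κ - P ≤ y u := by
    intro u h1 h2
    have h3 := hmax' (K - u) (by omega) (by omega)
    rw [sym u h1 h2] at h3
    omega
  have yA := hy A hA.1 hA.2
  rw [← hP] at yA
  obtain ⟨yA1, yA2, yA3⟩ := yA
  have yB : y (K - A) = κ - P := by rw [sym A hA.1 hA.2, hP]
  have yB3 := (hy (K - A) (by omega) (by omega)).2.2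
  rw [yB] at yB3
  have hPκ : κ ≤ P := by
    have := hmax' K (by omega) le_rfl
    omega
  obtain ⟨G, hG⟩ : ∃ G, G = n - (2 * P - κ) := ⟨_, rfl⟩
  have hGm : n - 4 * r + 3 ≤ G := by omega
  rcases lt_trichotomy (2 * A) K with h2A | h2A | h2A
  · -- the largest element comes early
    obtain ⟨q, e, q1, qK, e1, hqe, heq, hmin, -⟩ := pack (a := -a) (n := n) (K := K - 2 * A)
      (κ := 2 * P - κ) hco.neg_left (by omega) (by omega) (by omega) (by omega)
      (by
        obtain ⟨x, hx⟩ := hend
        obtain ⟨z, hz⟩ := yA3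
        exact ⟨2 * z - x, by linear_combination 2 * hz - hx⟩)
      (fun d h1 h2 => by
        have h3 : (-a * d) % n = P - y (A + d) := by
          obtain ⟨x, hx⟩ := (hy (A + d) (by omega) (by omega)).2.2
          obtain ⟨z, hz⟩ := yA3
          have h4 := hmax' (A + d) (by omega) (by omega)
          have h6 := hmin' (A + d) (by omega) (by omega)
          exact fval ⟨z - x, by linear_combination hz - hx⟩ (by omega) (by omega)
        rw [h3]
        have h4 := hmin' (A + d) (by omega) (by omega)
        have h6 : y (A + d) ≠ y (K - A) := fun h => by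
          have := inj _ _ (by omega) (by omega) (by omega) (by omega) h
          omega
        rw [yB] at h6
        omega)
    rw [← hG] at heq
    have hen : e < n := by
      have h1 := hmin 1 le_rfl (by omega)
      have h2 := Int.emod_lt_of_pos (-a * 1) hn0
      omega
    have Kpos : 0 < (K - 2 * A) * e := mul_pos (by omega) (by omega)
    have hq8 : q ≤ 8 := by
      have h1 : q * G < 9 * G := by omega
      have := lt_of_mul_lt_mul_right h1 (by omega)
      omega
    have hF : ∀ d, 1 ≤ d → d ≤ A → G ≤ (-a * d) % n := by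
      intro d h1 h2
      have h6 : y (A - d) ≠ y A := fun h => by
        have := inj _ _ (by omega) (by omega) (by omega) (by omega) h
        omega
      rw [← hP] at h6
      have h4 := hmax' (A - d) (by omega) (by omega)
      have h7 := hmin' (A - d) (by omega) (by omega)
      have h3 : (-a * d) % n = n - (P - y (A - d)) := by
        obtain ⟨x, hx⟩ := (hy (A - d) (by omega) (by omega)).2.2
        obtain ⟨z, hz⟩ := yA3
        exact fval ⟨x - z - 1, by linear_combination hx - hz⟩ (by omega) (by omega)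
      omega
    have hAq : A < q := by
      refine chain (a := -a) (n := n) (K := K - 2 * A) (G := G) hn0 (by omega) (by omega)
        (by omega) q1 e1 hen ?_ hqe heq hF (by omega)
      obtain ⟨x, hx⟩ := hend
      obtain ⟨z, hz⟩ := yA3
      exact ⟨2 * z - x + 1, by rw [hG]; linear_combination 2 * hz - hx⟩
    have hA1 : 1 ≤ A := by
      by_contra h
      have h0 : A = 0 := by omega
      rw [h0, y0] at hP
      omega
    obtain ⟨X, hX⟩ : ∃ X, X = n - 4 * r - 2 * (q - 1) := ⟨_, rfl⟩
    have k1 : X * e ≤ (K - 2 * A) * e := mul_le_mul_of_nonneg_right (by omega) (by omega)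
    have k2 : q * (n - 4 * r) ≤ q * G := mul_le_mul_of_nonneg_left (by omega) (by omega)
    have k3 : 0 < q * G := mul_pos (by omega) (by omega)
    have k4 : ∀ E, E ≤ e → X * E ≤ X * e := fun E h => mul_le_mul_of_nonneg_left h (by omega)
    obtain ⟨Y, hY⟩ : ∃ Y, Y = X * e := ⟨_, rfl⟩
    rw [← hY] at k1 k4
    have k5 : Y + q * (n - 4 * r) < 9 * (n - 4 * r) := by omega
    have he7 : e ≤ 7 := by
      by_contra h
      have k6 := k4 8 (by omega)
      clear k1 k2 k3 k4 heq hqe hmin hF hU hY
      interval_cases q <;> omega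
    have hqe9 : q + e ≤ 10 := by
      by_contra h
      have k6 := k4 (11 - q) (by omega)
      clear k1 k2 k3 k4 heq hqe hmin hF hU hY
      interval_cases q <;> omega
    have p3 : e * t ≤ e * r := mul_le_mul_of_nonneg_left ht (by omega)
    have p4 : q * r ≤ 8 * r := mul_le_mul_of_nonneg_right hq8 (by omega)
    have p4' : e * r ≤ 7 * r := mul_le_mul_of_nonneg_right he7 (by omega)
    have p5 : 0 < q * r := mul_pos (by omega) (by omega)
    have p6 : 0 < e * t := mul_pos (by omega) (by omega)
    obtain ⟨d, hd⟩ : n ∣ q * r - e * t := by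
      obtain ⟨x, hx⟩ := hqe
      obtain ⟨z, hz⟩ := hat
      exact ⟨q * z + t * x, by linear_combination q * hz + t * hx⟩
    have hd1 : d ≤ 1 := by
      by_contra h
      have : n * 2 ≤ n * d := mul_le_mul_of_nonneg_left (by omega) hn0.le
      omega
    have hd2 : -1 ≤ d := by
      by_contra h
      have : n * d ≤ n * (-2) := mul_le_mul_of_nonneg_left (by omega) hn0.le
      omega
    obtain ⟨c, hc⟩ : n ∣ q * P + A * e := by
      obtain ⟨x, hx⟩ := hqe
      obtain ⟨z, hz⟩ := yA3
      exact ⟨-q * z - A * x, by linear_combination -q * hz - A * hx⟩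
    have p7 : 0 < q * P := mul_pos (by omega) (by omega)
    have p8 : 0 < A * e := mul_pos (by omega) (by omega)
    have p9 : q * P ≤ 8 * P := mul_le_mul_of_nonneg_right hq8 (by omega)
    have p10 : A * e ≤ 7 * e := mul_le_mul_of_nonneg_right (by omega) (by omega)
    have hc1 : 1 ≤ c := by
      by_contra h
      have : n * c ≤ 0 := mul_nonpos_of_nonneg_of_nonpos hn0.le (by omega)
      omega
    have hc3 : c ≤ 3 := by
      by_contra h
      have : n * 4 ≤ n * c := mul_le_mul_of_nonneg_left (by omega) hn0.le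
      omega
    exact fin1b q e A c d q1 hq8 e1 he7 hqe9 hA1 hAq hc1 hc3 hd2 hd1 hn hr h9 h5 ht1 ht hr0 hK hd heq hc
      hG hκ1 (by omega) hPκ
  · omega
  · -- the largest element comes late
    obtain ⟨q, e, q1, qK, e1, hqe, heq, hmin, -⟩ := pack (a := a) (n := n) (K := 2 * A - K)
      (κ := 2 * P - κ) hco (by omega) (by omega) (by omega) (by omega)
      (by
        obtain ⟨x, hx⟩ := hend
        obtain ⟨z, hz⟩ := yA3
        exact ⟨2 * z - x, by linear_combination 2 * hz - hx⟩)
      (fun d h1 h2 => by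
        have h4 := hmax' (K - A + d) (by omega) (by omega)
        have h7 := hmin' (K - A + d) (by omega) (by omega)
        have h3 : (a * d) % n = y (K - A + d) - (κ - P) := by
          obtain ⟨x, hx⟩ := (hy (K - A + d) (by omega) (by omega)).2.2
          obtain ⟨z, hz⟩ := yB3
          exact fval ⟨x - z, by linear_combination hx - hz⟩ (by omega) (by omega)
        rw [h3]
        have h6 : y (K - A + d) ≠ y A := fun h => by
          have := inj _ _ (by omega) (by omega) (by omega) (by omega) h
          omega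
        rw [← hP] at h6
        omega)
    rw [← hG] at heq
    have hen : e < n := by
      have h1 := hmin 1 le_rfl (by omega)
      have h2 := Int.emod_lt_of_pos (a * 1) hn0
      omega
    obtain ⟨B, hB⟩ : ∃ B, B = K - A := ⟨_, rfl⟩
    rw [← hB] at yB yB3
    have Kpos : 0 < (2 * A - K) * e := mul_pos (by omega) (by omega)
    have hq8 : q ≤ 8 := by
      have h1 : q * G < 9 * G := by omega
      have := lt_of_mul_lt_mul_right h1 (by omega)
      omega
    have hF : ∀ d, 1 ≤ d → d ≤ B → G ≤ (a * d) % n := by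
      intro d h1 h2
      have h6 : y (B - d) ≠ y B := fun h => by
        have := inj _ _ (by omega) (by omega) (by omega) (by omega) h
        omega
      rw [yB] at h6
      have h4 := hmax' (B - d) (by omega) (by omega)
      have h7 := hmin' (B - d) (by omega) (by omega)
      have h3 : (a * d) % n = n - (y (B - d) - (κ - P)) := by
        obtain ⟨x, hx⟩ := (hy (B - d) (by omega) (by omega)).2.2
        obtain ⟨z, hz⟩ := yB3
        exact fval ⟨z - x - 1, by linear_combination hz - hx⟩ (by omega) (by omega)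
      omega
    have hBq : B < q := by
      refine chain (a := a) (n := n) (K := 2 * A - K) (G := G) hn0 (by omega) (by omega)
        (by omega) q1 e1 hen ?_ hqe heq hF (by omega)
      obtain ⟨x, hx⟩ := hend
      obtain ⟨z, hz⟩ := yA3
      exact ⟨2 * z - x + 1, by rw [hG]; linear_combination 2 * hz - hx⟩
    obtain ⟨X, hX⟩ : ∃ X, X = n - 4 * r - 2 * (q - 1) := ⟨_, rfl⟩
    have k1 : X * e ≤ (2 * A - K) * e := mul_le_mul_of_nonneg_right (by omega) (by omega)
    have k2 : q * (n - 4 * r) ≤ q * G := mul_le_mul_of_nonneg_left (by omega) (by omega)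
    have k3 : 0 < q * G := mul_pos (by omega) (by omega)
    have k4 : ∀ E, E ≤ e → X * E ≤ X * e := fun E h => mul_le_mul_of_nonneg_left h (by omega)
    obtain ⟨Y, hY⟩ : ∃ Y, Y = X * e := ⟨_, rfl⟩
    rw [← hY] at k1 k4
    have k5 : Y + q * (n - 4 * r) < 9 * (n - 4 * r) := by omega
    have he7 : e ≤ 7 := by
      by_contra h
      have k6 := k4 8 (by omega)
      clear k1 k2 k3 k4 heq hqe hmin hF hU hY
      interval_cases q <;> omega
    have hqe9 : q + e ≤ 10 := by
      by_contra h
      have k6 := k4 (11 - q) (by omega)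
      clear k1 k2 k3 k4 heq hqe hmin hF hU hY
      interval_cases q <;> omega
    have p3 : e * t ≤ e * r := mul_le_mul_of_nonneg_left ht (by omega)
    have p4 : (q + e) * r ≤ 10 * r := mul_le_mul_of_nonneg_right hqe9 (by omega)
    have p5 : 0 < q * r := mul_pos (by omega) (by omega)
    have p6 : 0 < e * t := mul_pos (by omega) (by omega)
    obtain ⟨d, hd⟩ : n ∣ q * r + e * t := by
      obtain ⟨x, hx⟩ := hqe
      obtain ⟨z, hz⟩ := hat
      exact ⟨q * z - t * x, by linear_combination q * hz - t * hx⟩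
    have hd1 : 1 ≤ d := by
      by_contra h
      have : n * d ≤ 0 := mul_nonpos_of_nonneg_of_nonpos hn0.le (by omega)
      omega
    have hd2 : d ≤ 2 := by
      by_contra h
      have : n * 3 ≤ n * d := mul_le_mul_of_nonneg_left (by omega) hn0.le
      nlinarith
    obtain ⟨c, hc⟩ : n ∣ q * (P - κ) + B * e := by
      obtain ⟨x, hx⟩ := hqe
      obtain ⟨z, hz⟩ := yB3
      exact ⟨q * z - B * x, by linear_combination q * hz - B * hx⟩
    have p7 : 0 ≤ q * (P - κ) := mul_nonneg (by omega) (by omega)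
    have p8 : 0 ≤ B * e := mul_nonneg (by omega) (by omega)
    have p9 : q * (P - κ) ≤ 8 * (P - κ) := mul_le_mul_of_nonneg_right hq8 (by omega)
    have p10 : B * e ≤ 7 * e := mul_le_mul_of_nonneg_right (by omega) (by omega)
    have hc1 : 0 ≤ c := by
      by_contra h
      have : n * c ≤ n * (-1) := mul_le_mul_of_nonneg_left (by omega) hn0.le
      omega
    have hc3 : c ≤ 3 := by
      by_contra h
      have : n * 4 ≤ n * c := mul_le_mul_of_nonneg_left (by omega) hn0.le
      omega
    refine fin1a (K := K) (G := G) (κ := κ) (η := P - κ) q e B c d q1 hq8 e1 he7 hqe9 hd1 hd2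
      (by omega) hBq hc1 hc3 hn hr h9 h5 ht1 ht hr0 hK hd ?_ hc (by omega) hκ1 (by omega) (by omega) ?_
    · have : K - 2 * B = 2 * A - K := by omega
      rw [this]
      exact heq
    · intro h0
      rw [h0, y0] at yB
      omega

end Pool.Agent.H86.SS
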