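import Mathlib
import Pool.Agent.H86.SS.Chain
import Pool.Agent.H86.SS.FinA
import Pool.Agent.H86.SS.FinB

set_option autoImplicit false

namespace Pool.Agent.H86.SS

theorem mult_one {n r x : ℤ} (h9 : 9 * r < 2 * n) (hr : 0 < r) (h0 : 0 < x) (h1 : x ≤ 9 * r)
    (hd : n ∣ x) : x = n := by
  obtain ⟨c, hc⟩ := hd
  have hn : 0 < n := by omega
  have h2 : 0 < c := by
    by_contra h
    have : n * c ≤ 0 := mul_nonpos_of_nonneg_of_nonpos hn.le (by omega)
    omega
  have h3 : c < 2 := by
    by_contra h
    have : n * 2 ≤ n * c := mul_le_mul_of_nonneg_left (by omega) hn.le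
    omega
  have h4 : c = 1 := by omega
  rw [hc, h4, mul_one]

/-- the case `2 r ≤ κ` -/
theorem orbit_low {n r t K κ a : ℤ} (hn : n % 2 = 1) (hr : r % 2 = 0) (hr0 : 48 ≤ r)
    (hm : 25 ≤ n - 4 * r) (h9 : 9 * r < 2 * n) (h5 : n < 5 * r) (ht1 : 1 ≤ t) (ht : t ≤ r)
    (hK : K = n - 2 * r - 2 * t) (hat : n ∣ a * t + r) (hκn : κ < n)
    (hend : n ∣ a * K - κ) (hco : IsCoprime a n)
    (hU : ∀ u, 0 < u → u < K → ∃ s, 0 < s ∧ s < 2 * r ∧ (n ∣ a * u - s ∨ n ∣ a * u - (κ - s)))
    (hκ : 2 * r ≤ κ) : n = 2 * r + 3 * t ∧ n ∣ 2 * a - 3 := by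
  have hK1 : n - 4 * r ≤ K := by omega
  have hval : ∀ u, 0 < u → u < K → 0 < (a * u) % n ∧
      ((a * u) % n < 2 * r ∨ (κ - 2 * r < (a * u) % n ∧ (a * u) % n < κ)) := by
    intro u h1 h2
    obtain ⟨s, s1, s2, s3 | s3⟩ := hU u h1 h2
    · rw [fval s3 s1.le (by omega)]
      exact ⟨s1, Or.inl s2⟩
    · rw [fval s3 (by omega) (by omega)]
      exact ⟨by omega, Or.inr ⟨by omega, by omega⟩⟩
  obtain ⟨q, e, q1, qK, e1, hqe, heq, hmin, htile⟩ := pack hco (by omega : 0 < K) (by omega) hκn
    (by omega) hend (fun u h1 h2 => by rcases (hval u h1 h2).2 with h | h <;> omega)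
  obtain ⟨g, hg⟩ : ∃ g, g = n - κ := ⟨_, rfl⟩
  rw [← hg] at heq htile
  have hg0 : 0 < g := by omega
  have hrel : n ∣ q * r + e * t := by
    obtain ⟨x, hx⟩ := hqe
    obtain ⟨y, hy⟩ := hat
    exact ⟨q * y - t * x, by linear_combination q * hy - t * hx⟩
  have a1 : (n - 4 * r) * e ≤ K * e := mul_le_mul_of_nonneg_right hK1 (by omega)
  have p1 : 0 < q * r := mul_pos (by omega) (by omega)
  have p2 : 0 < e * t := mul_pos (by omega) (by omega)
  have p3 : e * t ≤ e * r := mul_le_mul_of_nonneg_left ht (by omega)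
  by_cases hκ4 : κ ≤ 4 * r
  · have hS : q + e ≤ 8 := by
      have a2 : q * (n - 4 * r) ≤ q * g := mul_le_mul_of_nonneg_left (by omega) (by omega)
      have a3 : (q + e) * (n - 4 * r) < 9 * (n - 4 * r) := by nlinarith
      have a4 : q + e < 9 := lt_of_mul_lt_mul_right a3 (by omega)
      omega
    have p4 : (q + e) * r ≤ 8 * r := mul_le_mul_of_nonneg_right hS (by omega)
    have h1 := mult_one h9 (by omega) (by omega) (by nlinarith) hrel
    obtain ⟨h2, h3⟩ := fin2 q e q1 e1 hS hn hr h9 h5 ht1 ht hK h1 heq (by omega) (by omega)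
    subst h2 h3
    refine ⟨by omega, ?_⟩
    rwa [mul_comm]
  · exfalso
    have hgm : g < n - 4 * r := by omega
    have he8 : e ≤ 8 := by
      have a2 : 0 < q * g := mul_pos (by omega) hg0
      have a3 : e * (n - 4 * r) < 9 * (n - 4 * r) := by nlinarith
      have := lt_of_mul_lt_mul_right a3 (by omega)
      omega
    have h5' : n - 4 * r + 1 ≤ e + 2 * g := by
      rcases htile (2 * r) with ⟨u, i, u0, uK, i0, ie, x, hx⟩ | ⟨d, i, d0, dq, i0, ig, x, hx⟩
      · have u1 : 0 < u := by
          by_contra h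
          have h0 : u = 0 := by omega
          subst h0
          have h6 : n ∣ i - 2 * r := ⟨x, by linear_combination hx⟩
          have := Int.eq_zero_of_abs_lt_dvd h6 (abs_lt.2 ⟨by omega, by omega⟩)
          omega
        have fu : (a * u) % n = 2 * r - i :=
          fval ⟨x, by linear_combination hx⟩ (by omega) (by omega)
        have hu := hval u u1 uK
        rw [fu] at hu
        obtain ⟨y, hy⟩ := hqe
        obtain ⟨z, hz⟩ := hend
        rcases lt_trichotomy (u + q) K with h6 | h6 | h6
        · have f2 : (a * (u + q)) % n = 2 * r - i + e :=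
            fval ⟨x + y, by linear_combination hx + hy⟩ (by omega) (by omega)
          have hv := hval (u + q) (by omega) h6
          rw [f2] at hv
          omega
        · have h7 : n ∣ κ - (2 * r - i + e) := ⟨x + y - z, by
            rw [← h6] at hz
            linear_combination hx + hy - hz⟩
          have := Int.eq_zero_of_abs_lt_dvd h7 (abs_lt.2 ⟨by omega, by omega⟩)
          omega
        · have f2 : (a * (u + q - K)) % n = 2 * r - i + e + g :=
            fval ⟨x + y - z - 1, by linear_combination hx + hy - hz - hg⟩ (by omega) (by omega)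
          have hv := hval (u + q - K) (by omega) (by omega)
          rw [f2] at hv
          omega
      · have d1 : 0 < d := by
          by_contra h
          have h0 : d = 0 := by omega
          subst h0
          have h6 : n ∣ 2 * r + 1 + i := ⟨-x, by linear_combination -hx⟩
          have := Int.le_of_dvd (by omega) h6
          omega
        have fu : (a * d) % n = 2 * r + 1 + i :=
          fval ⟨x, by linear_combination hx⟩ (by omega) (by omega)
        have hu := hval d d1 (by omega)
        rw [fu] at hu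
        omega
    have hq18 : q + 2 * e ≤ 19 := by
      by_contra h
      have a2 : q * (n - 4 * r + 1 - e) ≤ q * (2 * g) :=
        mul_le_mul_of_nonneg_left (by omega) (by omega)
      have a4 : (20 - 2 * e) * (n - 4 * r + 1 - e) ≤ q * (n - 4 * r + 1 - e) :=
        mul_le_mul_of_nonneg_right (by omega) (by omega)
      have a5 : (20 - 2 * e) * (n - 4 * r + 1 - e) + 2 * ((n - 4 * r) * e) ≤ 2 * n := by
        nlinarith
      interval_cases e <;> omega
    obtain ⟨c, hc⟩ := hrel
    have p4 : (q + e) * r ≤ 18 * r := mul_le_mul_of_nonneg_right (by omega) (by omega)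
    have hc1 : 1 ≤ c := by
      by_contra h
      have : n * c ≤ 0 := mul_nonpos_of_nonneg_of_nonpos (by omega) (by omega)
      omega
    have hc3 : c ≤ 3 := by
      by_contra h
      have h6 : n * 4 ≤ n * c := mul_le_mul_of_nonneg_left (by omega) (by omega)
      nlinarith
    exact fin3 q e c q1 e1 hq18 hc1 hc3 he8 hn hr h9 h5 ht1 ht hK hc heq hgm h5'

end Pool.Agent.H86.SS
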