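import Mathlib

set_option autoImplicit false

namespace Pool.Agent.H86.SS

/-- `p k` for all `k < n` -/
def allB (n : ℕ) (p : ℕ → Bool) : Bool :=
  Nat.rec true (fun k ih => Bool.rec false ih (p k)) n

/-- implication -/
def imB (b c : Bool) : Bool := Bool.rec true c b

/-- disjunction -/
def orB (b c : Bool) : Bool := Bool.rec c true b

theorem imB_iff (b c : Bool) : imB b c = true ↔ (b = true → c = true) := by
  cases b <;> cases c <;> decide

theorem orB_iff (b c : Bool) : orB b c = true ↔ (b = true ∨ c = true) := by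
  cases b <;> cases c <;> decide

theorem allB_iff (n : ℕ) (p : ℕ → Bool) : allB n p = true ↔ ∀ k < n, p k = true := by
  induction n with
  | zero => simp [allB]
  | succ n ih =>
    have e : allB (n + 1) p = Bool.rec false (allB n p) (p n) := rfl
    constructor
    · intro h k hk
      rw [e] at h
      cases hp : p n with
      | false => rw [hp] at h; exact absurd (show false = true from h) (by decide)
      | true =>
        rw [hp] at h
        rcases Nat.lt_succ_iff_lt_or_eq.1 hk with h3 | h3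
        · exact ih.1 h k h3
        · rw [h3]; exact hp
    · intro h
      rw [e, h n (Nat.lt_succ_self n)]
      exact ih.2 fun k hk => h k (Nat.lt_succ_of_lt hk)

/-- `0 < x < m` -/
def inB (x m : ℕ) : Bool := imB (Nat.ble 1 x) (Nat.ble (Nat.succ x) m)

def okAt (n r κ x : ℕ) : Bool :=
  orB (Bool.rec false (Nat.ble (Nat.succ x) (Nat.mul 2 r)) (Nat.ble 1 x))
    (Bool.rec false (Nat.ble (Nat.succ (Nat.mod (Nat.sub (Nat.add κ n) x) n)) (Nat.mul 2 r))
      (Nat.ble 1 (Nat.mod (Nat.sub (Nat.add κ n) x) n)))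

def orb (n r K a : ℕ) : Bool :=
  allB K (fun u => orB (Nat.beq u 0)
    (okAt n r (Nat.mod (Nat.mul a K) n) (Nat.mod (Nat.mul a u) n)))

def chk (n r t a : ℕ) : Bool :=
  imB (Nat.beq (Nat.mod (Nat.add (Nat.mul a t) r) n) 0)
    (imB (orb n r (Nat.sub (Nat.sub n (Nat.mul 2 r)) (Nat.mul 2 t)) a)
      (Bool.rec false (Nat.beq (Nat.mod (Nat.mul 2 a) n) 3)
        (Nat.beq n (Nat.add (Nat.mul 2 r) (Nat.mul 3 t)))))

/-- the check for one `r` -/
def chkR (r : ℕ) : Bool :=
  allB (5 * r) (fun n => imB (Nat.beq (Nat.mod n 2) 1) (imB (Nat.ble (9 * r + 1) (Nat.mul 2 n))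
    (allB (r + 1) (fun t => imB (Nat.ble 1 t) (allB n (fun a => chk n r t a))))))

theorem small46 : allB 47 (fun r => imB (Nat.beq (Nat.mod r 2) 0) (chkR r)) = true := by
  decide +kernel

end Pool.Agent.H86.SS
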