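import Mathlib
import Pool.Agent.H86.SS.Small
import Pool.Agent.H86.SS.Pack

set_option autoImplicit false

namespace Pool.Agent.H86.SS

theorem beqT {a b : ℕ} (h : a = b) : Nat.beq a b = true := by
  subst h
  exact Nat.beq_refl a

theorem bleT {a b : ℕ} (h : a ≤ b) : Nat.ble a b = true := Nat.ble_eq_true_of_le h

theorem chk_nat {n r t a : ℕ} (hn : n % 2 = 1) (hr : r % 2 = 0) (hr46 : r ≤ 46)
    (h9 : 9 * r < 2 * n) (h5 : n < 5 * r) (ht1 : 1 ≤ t) (ht : t ≤ r) (ha : a < n)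
    (hat : (a * t + r) % n = 0)
    (hU : ∀ u < n - 2 * r - 2 * t, u = 0 ∨
      (1 ≤ (a * u) % n ∧ (a * u) % n + 1 ≤ 2 * r) ∨
      (1 ≤ ((a * (n - 2 * r - 2 * t)) % n + n - (a * u) % n) % n ∧
        ((a * (n - 2 * r - 2 * t)) % n + n - (a * u) % n) % n + 1 ≤ 2 * r)) :
    n = 2 * r + 3 * t ∧ (2 * a) % n = 3 := by
  have h1 := (allB_iff _ _).1 small46 r (by omega)
  have h2 := (imB_iff _ _).1 h1 (beqT hr)
  have h3 := (allB_iff _ _).1 h2 n h5
  have h4 := (imB_iff _ _).1 h3 (beqT hn)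
  have h6 := (imB_iff _ _).1 h4 (bleT (by show 9 * r + 1 ≤ 2 * n; omega))
  have h7 := (allB_iff _ _).1 h6 t (by omega)
  have h8 := (imB_iff _ _).1 h7 (bleT ht1)
  have h10 := (allB_iff _ _).1 h8 a ha
  have h11 := (imB_iff _ _).1 h10 (beqT hat)
  have h12 := (imB_iff _ _).1 h11 (by
    refine (allB_iff _ _).2 fun u hu => (orB_iff _ _).2 ?_
    rcases hU u hu with h | h | h
    · exact Or.inl (beqT h)
    · refine Or.inr ((orB_iff _ _).2 (Or.inl ?_))
      have e1 : Nat.ble 1 (Nat.mod (Nat.mul a u) n) = true := bleT h.1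
      rw [e1]
      exact bleT h.2
    · refine Or.inr ((orB_iff _ _).2 (Or.inr ?_))
      have e1 : Nat.ble 1 (Nat.mod (Nat.sub (Nat.add (Nat.mod (Nat.mul a
        (Nat.sub (Nat.sub n (Nat.mul 2 r)) (Nat.mul 2 t))) n) n) (Nat.mod (Nat.mul a u) n)) n)
        = true := bleT h.1
      rw [e1]
      exact bleT h.2)
  have e2 : n = 2 * r + 3 * t := by
    by_contra hne
    have e3 : Nat.beq n (Nat.add (Nat.mul 2 r) (Nat.mul 3 t)) = false := by
      cases hb : Nat.beq n (Nat.add (Nat.mul 2 r) (Nat.mul 3 t)) with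
      | false => rfl
      | true => exact absurd (Nat.eq_of_beq_eq_true hb) hne
    rw [e3] at h12
    exact absurd (show false = true from h12) (by decide)
  refine ⟨e2, ?_⟩
  have e3 : Nat.beq n (Nat.add (Nat.mul 2 r) (Nat.mul 3 t)) = true :=
    beqT e2
  rw [e3] at h12
  exact Nat.eq_of_beq_eq_true h12

theorem small_key {n r t K κ a : ℤ} (hn : n % 2 = 1) (hr : r % 2 = 0) (hr1 : 1 ≤ r)
    (hr46 : r ≤ 46) (h9 : 9 * r < 2 * n) (h5 : n < 5 * r) (ht1 : 1 ≤ t) (ht : t ≤ r)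
    (hK : K = n - 2 * r - 2 * t) (hat : n ∣ a * t + r) (hκ : κ = (a * K) % n)
    (hU : ∀ u, 0 < u → u < K → ∃ s, 0 < s ∧ s < 2 * r ∧
      (n ∣ a * u - s ∨ n ∣ a * u - (κ - s))) : n = 2 * r + 3 * t ∧ n ∣ 2 * a - 3 := by
  have hA0 : 0 ≤ a % n := Int.emod_nonneg _ (by omega)
  have hA1 : a % n < n := Int.emod_lt_of_pos _ (by omega)
  have hA2 : n ∣ a - a % n := Int.dvd_self_sub_emod
  obtain ⟨B, hB⟩ := Int.eq_ofNat_of_zero_le hA0
  obtain ⟨N, rfl⟩ := Int.eq_ofNat_of_zero_le (show 0 ≤ n by omega)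
  obtain ⟨R, rfl⟩ := Int.eq_ofNat_of_zero_le (show 0 ≤ r by omega)
  obtain ⟨T, rfl⟩ := Int.eq_ofNat_of_zero_le (show 0 ≤ t by omega)
  obtain ⟨M, hM⟩ : ∃ M, M = N - 2 * R - 2 * T := ⟨_, rfl⟩
  have hKM : K = (M : ℤ) := by omega
  rw [hB] at hA1 hA2
  obtain ⟨w, hw⟩ := hA2
  have val : ∀ u : ℕ, (((B * u) % N : ℕ) : ℤ) = (a * (u : ℤ)) % (N : ℤ) := by
    intro u
    have h1 : ((N : ℕ) : ℤ) ∣ ((B * u : ℕ) : ℤ) - (((B * u) % N : ℕ) : ℤ) := by
      rw [Int.natCast_mod]
      exact Int.dvd_self_sub_emod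
    obtain ⟨x, hx⟩ := h1
    symm
    apply fval
    · refine ⟨x + w * u, ?_⟩
      rw [Nat.cast_mul] at hx
      linear_combination hx + u * hw
    · exact Int.natCast_nonneg _
    · exact_mod_cast Nat.mod_lt _ (by omega)
  have hκ' : κ = (((B * M) % N : ℕ) : ℤ) := by rw [val, hκ, hKM]
  have main := chk_nat (n := N) (r := R) (t := T) (a := B) (by omega) (by omega) (by omega)
    (by omega) (by omega) (by omega) (by omega) (by omega) (by
      have h1 : (N : ℤ) ∣ ((B * T + R : ℕ) : ℤ) := by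
        obtain ⟨x, hx⟩ := hat
        push_cast
        exact ⟨x - w * T, by linear_combination hx - T * hw⟩
      exact Nat.mod_eq_zero_of_dvd (Int.natCast_dvd_natCast.1 h1)) (by
      intro u hu
      rw [← hM] at hu ⊢
      rcases Nat.eq_zero_or_pos u with h0 | h0
      · exact Or.inl h0
      right
      obtain ⟨s, s1, s2, s3 | s3⟩ := hU u (by omega) (by omega)
      · left
        have h1 := val u
        rw [fval s3 (by omega) (by omega)] at h1
        constructor <;> omega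
      · right
        have h1 := val u
        have h2 : (B * u) % N < N := Nat.mod_lt _ (by omega)
        have h3 : ((((B * M) % N + N - (B * u) % N) % N : ℕ) : ℤ) = s := by
          rw [Int.natCast_mod, Nat.cast_sub (by omega), Nat.cast_add, ← hκ', h1]
          have h4 := fval (a := 1) (n := (N : ℤ)) (u := κ + N - (a * u) % N) (v := s) (by
            obtain ⟨x, hx⟩ := s3
            obtain ⟨y, hy⟩ := fdvd a N u
            exact ⟨y - x + 1, by linear_combination hy - hx⟩) s1.le (by omega)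
          rw [one_mul] at h4
          exact h4
        constructor <;> omega)
  obtain ⟨m1, m2⟩ := main
  refine ⟨by omega, ?_⟩
  have h1 : (N : ℤ) ∣ ((2 * B : ℕ) : ℤ) - (((2 * B) % N : ℕ) : ℤ) := by
    rw [Int.natCast_mod]
    exact Int.dvd_self_sub_emod
  rw [m2] at h1
  obtain ⟨x, hx⟩ := h1
  push_cast at hx
  exact ⟨x + 2 * w, by linear_combination hx + 2 * hw⟩

end Pool.Agent.H86.SS
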