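import Mathlib
import Pool.Agent.H86.SS.High
import Pool.Agent.H86.SS.Orbit
import Pool.Agent.H86.SS.Final
import Pool.Agent.H86.SS.SmallKey

set_option autoImplicit false

namespace Pool.Agent.H86.SS

open Pool.Agent.H208.SS

theorem family_only {h n W : ℤ} (h4 : h % 4 = 0) (h0 : 1 ≤ h) (hW : W % 2 = 1)
    (hc : CoverG h n W) (hn9 : 9 * h < 4 * n) : h % 3 ≠ 0 ∧ n % 3 = h % 3 := by
  have hn : 2 * h + 2 ≤ n := by omega
  obtain ⟨hodd, -, hfive⟩ := coverG_bound (h := h) (n := n) (by omega) hW hc hn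
  have hfive := hfive (by omega)
  have h8 : 8 ≤ h := by omega
  have hle := coverG_bound4 h4 h8 hW hc hn
  obtain ⟨W', t2, hc', hW', hu, t1, t2h, tpar, hd⟩ := normaliseG (by omega) hW hc hn
  obtain ⟨r, hr⟩ : ∃ r, h = 2 * r := ⟨h / 2, by omega⟩
  obtain ⟨t, ht⟩ : ∃ t, t2 = 2 * t := ⟨t2 / 2, by omega⟩
  subst hr ht
  obtain ⟨a, F, haF⟩ := hu
  have haW : n ∣ a * W' - 1 := ⟨-2 * F, by linear_combination haF⟩
  have hco : IsCoprime a n := ⟨W', 2 * F, by linear_combination haF⟩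
  have hrt : n ∣ r * W' + t := by
    obtain ⟨x, hx⟩ := hd
    exact ⟨x, by linarith⟩
  have hat : n ∣ a * t + r := by
    obtain ⟨x, hx⟩ := hrt
    obtain ⟨z, hz⟩ := haW
    exact ⟨a * x - r * z, by linear_combination a * hx - r * hz⟩
  obtain ⟨K, hK⟩ : ∃ K, K = n - 2 * r - 2 * t := ⟨_, rfl⟩
  obtain ⟨κ, hκ⟩ : ∃ κ, κ = (a * K) % n := ⟨_, rfl⟩
  have hκ0 : 0 ≤ κ := by rw [hκ]; exact Int.emod_nonneg _ (by omega)
  have hκn : κ < n := by rw [hκ]; exact Int.emod_lt_of_pos _ (by omega)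
  have hend : n ∣ a * K - κ := by rw [hκ]; exact fdvd a n K
  have hU : ∀ u, 0 < u → u < K → ∃ s, 0 < s ∧ s < 2 * r ∧
      (n ∣ a * u - s ∨ n ∣ a * u - (κ - s)) := by
    intro u u1 u2
    obtain ⟨x, x1, x2, x3, x4⟩ := hc'.valB (by omega) (by omega) hd (2 * r + 2 * t + 2 * u)
      (by omega) (by omega) (by omega)
    obtain ⟨p, hp⟩ : ∃ p, x = 2 * p := ⟨x / 2, by omega⟩
    subst hp
    obtain ⟨y, hy⟩ := hat
    obtain ⟨z, hz⟩ := haW
    obtain ⟨w, hw⟩ := hend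
    rcases x4 with ⟨v, hv⟩ | ⟨v, hv⟩
    · refine ⟨p + r, by omega, by omega, Or.inl ?_⟩
      have hv' : p * W' - t - u = n * v := by linarith
      exact ⟨p * z - y - a * v, by linear_combination p * hz - hy - a * hv'⟩
    · refine ⟨r - p, by omega, by omega, Or.inr ?_⟩
      have hv' : p * W' - 2 * r - t - u = n * v := by linarith
      exact ⟨p * z - a * v + y - a + w, by
        linear_combination p * hz - a * hv' + hy + hw - a * hK⟩
  have key : n = 2 * r + 3 * t ∧ n ∣ 2 * a - 3 := by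
    by_cases hr46 : r ≤ 46
    · exact small_key hodd (by omega) (by omega) hr46 (by omega) (by omega) (by omega)
        (by omega) hK hat hκ hU
    rcases le_or_gt (2 * r) κ with h1 | h1
    · exact orbit_low hodd (by omega) (by omega) (by omega) (by omega) (by omega) (by omega)
        (by omega) hK hat hκn hend hco hU h1
    · exact (orbit_high hodd (by omega) (by omega) (by omega) (by omega) (by omega) (by omega)
        (by omega) hK hat hκ0 hend hco hU h1).elim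
  obtain ⟨k1, k2⟩ := key
  constructor
  · intro h3
    have h5 : (3 : ℤ) ∣ n := by omega
    have h6 : (3 : ℤ) ∣ 2 * a - 3 := h5.trans k2
    have h7 : (3 : ℤ) ∣ a := by omega
    obtain ⟨x, hx⟩ := h5
    obtain ⟨y, hy⟩ := h7
    have h8 : (3 : ℤ) ∣ 1 := ⟨y * W' + F * 2 * x, by
      rw [hx, hy] at haF
      linear_combination -haF⟩
    omega
  · omega

theorem top_range {G : Type} [AddCommGroup G] [Finite G] {h : ℕ} (h4 : 4 ∣ h) (h0 : 1 ≤ h)
    (hphi : phi G h = 2) (hbig : 9 * h < 4 * Nat.card G) :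
    ¬ 3 ∣ h ∧ Nat.card G % 3 = h % 3 ∧ 2 * Nat.card G ≤ 5 * h ∧ Odd (Nat.card G) := by
  have := nontrivial_of_phi hphi
  obtain ⟨a, b, -, hc⟩ := (phi_eq_two_iff (by omega)).1 hphi
  have main : ∀ b' : G, AddSubgroup.zmultiples (a - b') = ⊤ → Cov2 h a b' →
      ¬ 3 ∣ h ∧ Nat.card G % 3 = h % 3 ∧ 2 * Nat.card G ≤ 5 * h ∧ Odd (Nat.card G) := by
    intro b' hv hc'
    obtain ⟨W, hW, hcov⟩ := cover_ofG hv hc'
    obtain ⟨h1, h2⟩ := family_only (h := h) (n := Nat.card G) (by omega) (by omega) hW hcov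
      (by omega)
    obtain ⟨h3, -, h5⟩ := coverG_bound (h := h) (n := Nat.card G) (by omega) hW hcov (by omega)
    have h6 := h5 (by omega)
    exact ⟨by omega, by omega, by omega, by rw [Nat.odd_iff]; omega⟩
  rcases generates hc with hv | hu
  · exact main b hv hc
  · exact main (-b) (by rwa [sub_neg_eq_add]) hc.neg

theorem cyclic4 {G : Type} [AddCommGroup G] [Finite G] {h : ℕ} (hh : 1 ≤ h)
    (hphi : phi G h = 2) : 2 ≤ Nat.card G ∧ Nonempty (G ≃+ ZMod (Nat.card G)) ∧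
      (Nat.card G ≤ 2 * h + 1 ∨ Odd (Nat.card G)) := by
  obtain ⟨n, h1, h2, ⟨e⟩⟩ := necessary h hh G hphi
  have : NeZero n := ⟨by omega⟩
  have hcard : Nat.card G = n := by
    rw [Nat.card_congr e.toEquiv, Nat.card_zmod]
  rw [hcard]
  refine ⟨h1, ⟨e⟩, ?_⟩
  rcases h2 with h2 | h2
  · exact Or.inl h2
  · exact Or.inr h2.1

/-- for `4 ∣ h`: the groups of order larger than `9 h / 4` -/
theorem top_iff (h : ℕ) (h4 : 4 ∣ h) (h0 : 1 ≤ h) (G : Type) [AddCommGroup G] [Finite G]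
    (hbig : 9 * h < 4 * Nat.card G) :
    phi G h = 2 ↔ ¬ 3 ∣ h ∧ Odd (Nat.card G) ∧ Nat.card G % 3 = h % 3 ∧
      2 * Nat.card G ≤ 5 * h ∧ IsAddCyclic G := by
  constructor
  · intro hphi
    obtain ⟨h1, h2, h3, h5⟩ := top_range h4 h0 hphi hbig
    have := nontrivial_of_phi hphi
    obtain ⟨a, b, -, hc⟩ := (phi_eq_two_iff (by omega)).1 hphi
    exact ⟨h1, h5, h2, h3, cyclic_of_cov hc⟩
  · rintro ⟨h1, h2, h3, h5, hcyc⟩
    exact phi_one_five h4 h1 (by omega) (by omega) (Nat.odd_iff.1 h2) h3 h5 G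
      (zmodAddCyclicAddEquiv hcyc).symm

/-- the full list for `h ≡ 4 (mod 8)` -/
theorem four_mod_eight (h : ℕ) (h8 : h % 8 = 4) (G : Type) [AddCommGroup G]
    [Finite G] :
    phi G h = 2 ↔ ∃ n : ℕ, 2 ≤ n ∧ (n ≤ 2 * h + 1 ∨ (Odd n ∧ 4 * n ≤ 9 * h) ∨
      (Odd n ∧ ¬ 3 ∣ h ∧ n % 3 = h % 3 ∧ 2 * n ≤ 5 * h)) ∧ Nonempty (G ≃+ ZMod n) := by
  constructor
  · intro hphi
    obtain ⟨h1, h2, h3⟩ := cyclic4 (by omega) hphi
    refine ⟨Nat.card G, h1, ?_, h2⟩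
    rcases le_or_gt (4 * Nat.card G) (9 * h) with h5 | h5
    · rcases h3 with h3 | h3
      · exact Or.inl h3
      · exact Or.inr (Or.inl ⟨h3, h5⟩)
    · obtain ⟨k1, k2, k3, k4⟩ := top_range (by omega) (by omega) hphi h5
      exact Or.inr (Or.inr ⟨k4, k1, k2, k3⟩)
  · rintro ⟨n, h1, h2, ⟨e⟩⟩
    rcases h2 with h2 | ⟨h2, h3⟩ | ⟨h2, h3, h5, h6⟩
    · exact sufficient h (by omega) G n h1 e (Or.inl h2)
    · obtain ⟨m, hm⟩ : ∃ m, h = 4 * m := ⟨h / 4, by omega⟩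
      exact phi_pow (k := 2) (K := 4) (m := m) (by norm_num) (by omega) hm h1 (Nat.odd_iff.1 h2)
        (by omega) G e
    · exact phi_one_five (by omega) h3 (by omega) h1 (Nat.odd_iff.1 h2) h5 h6 G e

end Pool.Agent.H86.SS
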